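import Pool.Agent.Helper53.Pq.Goals

set_option autoImplicit false

/-! Packet FN: from the law to the function. -/

namespace Pool.Agent.Helper56.Pq

open MeasureTheory Set Real
open Pool.Agent.Helper53.Pq
open Pool.Agent.Helper28.NO (Lf Ok IsLaw ph hm mu muZ mix ok_cos_cos Lf_cos_cos isLaw_ph)

lemma cos_le4_nonneg {x : ℝ} (hx : 0 ≤ x) : cos x ≤ 1 - x ^ 2 / 2 + x ^ 4 / 24 := by
  let f (t : ℝ) : ℝ := 1 - t ^ 2 / 2 + t ^ 4 / 24 - cos t
  have hd (t : ℝ) : HasDerivAt f (-t + t ^ 3 / 6 + sin t) t := by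
    have h1 : HasDerivAt (fun s : ℝ => s ^ 2 / 2) t t := by
      have := (hasDerivAt_pow 2 t).div_const 2
      simpa using this
    have h2 : HasDerivAt (fun s : ℝ => s ^ 4 / 24) (t ^ 3 / 6) t := by
      have := (hasDerivAt_pow 4 t).div_const 24
      refine this.congr_deriv ?_
      push_cast
      ring
    have h3 := ((h1.const_sub 1).add h2).sub (hasDerivAt_cos t)
    refine h3.congr_deriv ?_
    ring
  have hmono : MonotoneOn f (Set.Ici 0) := by
    apply monotoneOn_of_deriv_nonneg (convex_Ici 0)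
    · exact fun t _ => (hd t).continuousAt.continuousWithinAt
    · exact fun t _ => (hd t).differentiableAt.differentiableWithinAt
    · intro t ht
      rw [interior_Ici] at ht
      rw [(hd t).deriv]
      have := Real.sin_ge_sub_cube (le_of_lt ht)
      linarith
  have h0 : f 0 ≤ f x := hmono (by simp) hx hx
  simp only [f] at h0
  rw [cos_zero] at h0
  linarith

lemma cos_le4 (x : ℝ) : cos x ≤ 1 - x ^ 2 / 2 + x ^ 4 / 24 := by
  rcases le_total 0 x with h | h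
  · exact cos_le4_nonneg h
  · have := cos_le4_nonneg (x := -x) (by linarith)
    rw [cos_neg] at this
    have e1 : (-x) ^ 2 = x ^ 2 := by ring
    have e2 : (-x) ^ 4 = x ^ 4 := by ring
    rw [e1, e2] at this
    exact this

lemma sin_le5 {x : ℝ} (hx : 0 ≤ x) : sin x ≤ x - x ^ 3 / 6 + x ^ 5 / 120 := by
  let f (t : ℝ) : ℝ := t - t ^ 3 / 6 + t ^ 5 / 120 - sin t
  have hd (t : ℝ) : HasDerivAt f (1 - t ^ 2 / 2 + t ^ 4 / 24 - cos t) t := by
    have h1 : HasDerivAt (fun s : ℝ => s ^ 3 / 6) (t ^ 2 / 2) t := by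
      have := (hasDerivAt_pow 3 t).div_const 6
      refine this.congr_deriv ?_
      push_cast
      ring
    have h2 : HasDerivAt (fun s : ℝ => s ^ 5 / 120) (t ^ 4 / 24) t := by
      have := (hasDerivAt_pow 5 t).div_const 120
      refine this.congr_deriv ?_
      push_cast
      ring
    exact (((hasDerivAt_id t).sub h1).add h2).sub (hasDerivAt_sin t)
  have hmono : MonotoneOn f (Set.Ici 0) := by
    apply monotoneOn_of_deriv_nonneg (convex_Ici 0)
    · exact fun t _ => (hd t).continuousAt.continuousWithinAt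
    · exact fun t _ => (hd t).differentiableAt.differentiableWithinAt
    · intro t _
      rw [(hd t).deriv]
      have := cos_le4 t
      linarith
  have h0 : f 0 ≤ f x := hmono (by simp) hx hx
  simp only [f] at h0
  rw [sin_zero] at h0
  linarith

lemma sin_quart_nonneg {x : ℝ} (hx : 0 ≤ x) : |sin x - x + x ^ 3 / 6| ≤ x ^ 4 / 36 := by
  have h1 := Real.sin_ge_sub_cube hx
  rw [abs_of_nonneg (by linarith)]
  rcases le_total x (10 / 3) with h | h
  · have h2 := sin_le5 hx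
    have h3 : x ^ 5 / 120 ≤ x ^ 4 / 36 := by
      have : x ^ 4 * x ≤ x ^ 4 * (10 / 3) := mul_le_mul_of_nonneg_left h (by positivity)
      nlinarith [this]
    linarith
  · rcases le_total x 6 with h6 | h6
    · have hpi := Real.pi_lt_d2
      have hpi2 := Real.pi_gt_d2
      have h4 : sin x ≤ 0 := by
        have h5 : 0 ≤ sin (x - π) := sin_nonneg_of_nonneg_of_le_pi (by linarith) (by linarith)
        rw [sin_sub_pi] at h5
        linarith
      have h5 : x ^ 2 * (6 - x) ≤ 36 := by nlinarith [sq_nonneg (x - 4), mul_nonneg hx (sq_nonneg (x - 4))]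
      have h7 : x * (x ^ 2 * (6 - x)) ≤ x * 36 := mul_le_mul_of_nonneg_left h5 hx
      nlinarith [h7]
    · have h2 : sin x ≤ x := sin_le hx
      have h3 : x ^ 3 * 6 ≤ x ^ 3 * x := mul_le_mul_of_nonneg_left h6 (by positivity)
      nlinarith [h3]

lemma sin_quart (x : ℝ) : |sin x - x + x ^ 3 / 6| ≤ x ^ 4 / 36 := by
  rcases le_total 0 x with h | h
  · exact sin_quart_nonneg h
  · have := sin_quart_nonneg (x := -x) (by linarith)
    rw [sin_neg] at this
    have e1 : -sin x - -x + (-x) ^ 3 / 6 = -(sin x - x + x ^ 3 / 6) := by ring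
    have e2 : (-x) ^ 4 = x ^ 4 := by ring
    rw [e1, e2, abs_neg] at this
    exact this

section law

variable {θ : ℝ} {μ : Measure ℝ}

lemma int_poly (hB : B4 θ μ) {g : ℝ → ℝ} (hg : Measurable g) (c : ℝ)
    (hb : ∀ y, |g y| ≤ c * (1 + y ^ 4)) : Integrable g μ := by
  have := hB.prob
  have h1 : Integrable (fun y : ℝ => c * (1 + y ^ 4)) μ :=
    ((integrable_const (1 : ℝ)).add hB.int4).const_mul c
  refine h1.mono' hg.aestronglyMeasurable (Filter.Eventually.of_forall fun y => ?_)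
  rw [Real.norm_eq_abs]
  exact hb y

lemma pow4_bound (y : ℝ) : (y - 1) ^ 4 ≤ 8 * (1 + y ^ 4) := by
  nlinarith [sq_nonneg (y ^ 2 - 1), sq_nonneg ((y + 1) ^ 2), sq_nonneg (y + 1), sq_nonneg (y - 1),
    sq_nonneg ((y + 1) * (y - 1)), mul_nonneg (sq_nonneg (y + 1)) (sq_nonneg (y - 1)),
    sq_nonneg (y * (y + 1)), sq_nonneg (y ^ 2 + 2 * y + 1)]

lemma int_z4 (hB : B4 θ μ) : Integrable (fun y : ℝ => (y - 1) ^ 4) μ := by
  refine int_poly hB (by fun_prop) 8 (fun y => ?_)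
  rw [abs_of_nonneg (by positivity)]
  exact pow4_bound y

lemma int_z1 (hB : B4 θ μ) : Integrable (fun y : ℝ => y - 1) μ := by
  refine int_poly hB (by fun_prop) 9 (fun y => ?_)
  have h1 := pow4_bound y
  have h2 : |y - 1| ≤ 1 + (y - 1) ^ 4 := by
    rw [abs_le]
    constructor <;> nlinarith [sq_nonneg ((y - 1) ^ 2 - 1), sq_nonneg (y - 1 - 1), sq_nonneg (y - 1 + 1)]
  have h3 : 0 ≤ y ^ 4 := by positivity
  linarith

lemma int_z2 (hB : B4 θ μ) : Integrable (fun y : ℝ => (y - 1) ^ 2) μ := by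
  refine int_poly hB (by fun_prop) 9 (fun y => ?_)
  have h1 := pow4_bound y
  have h2 : |(y - 1) ^ 2| ≤ 1 + (y - 1) ^ 4 := by
    rw [abs_of_nonneg (by positivity)]
    nlinarith [sq_nonneg ((y - 1) ^ 2 - 1)]
  have h3 : 0 ≤ y ^ 4 := by positivity
  linarith

lemma int_z3 (hB : B4 θ μ) : Integrable (fun y : ℝ => (y - 1) ^ 3) μ := by
  refine int_poly hB (by fun_prop) 17 (fun y => ?_)
  have h1 := pow4_bound y
  have h2 : |(y - 1) ^ 3| ≤ 1 + 2 * (y - 1) ^ 4 := by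
    rw [abs_le]
    constructor <;> nlinarith [sq_nonneg ((y - 1) ^ 2 - 1), sq_nonneg ((y - 1) ^ 2 - (y - 1)),
      sq_nonneg ((y - 1) ^ 2 + (y - 1)), sq_nonneg (y - 1)]
  have h3 : 0 ≤ y ^ 4 := by positivity
  linarith

lemma int_y (hB : B4 θ μ) : Integrable (fun y : ℝ => y) μ := by
  have := hB.prob
  have h := (int_z1 hB).add (integrable_const (1 : ℝ))
  refine h.congr (Filter.Eventually.of_forall fun y => ?_)
  simp

lemma mean_z (hB : B4 θ μ) : ∫ y, (y - 1) ∂μ = 0 := by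
  have := hB.prob
  rw [integral_sub (int_y hB) (integrable_const _), hB.mean]
  simp

/-- expectation of a polynomial of degree four in `Z`. -/
lemma int_lin (hB : B4 θ μ) (c0 c1 c2 c3 c4 : ℝ) :
    Integrable (fun y : ℝ => c0 + c1 * (y - 1) + c2 * (y - 1) ^ 2 + c3 * (y - 1) ^ 3 +
      c4 * (y - 1) ^ 4) μ ∧
    ∫ y, (c0 + c1 * (y - 1) + c2 * (y - 1) ^ 2 + c3 * (y - 1) ^ 3 + c4 * (y - 1) ^ 4) ∂μ =
      c0 + c2 * vv θ + c3 * ∫ y, (y - 1) ^ 3 ∂μ + c4 * ∫ y, (y - 1) ^ 4 ∂μ := by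
  have := hB.prob
  have i0 : Integrable (fun _ : ℝ => c0) μ := integrable_const _
  have i1 := (int_z1 hB).const_mul c1
  have i2 := (int_z2 hB).const_mul c2
  have i3 := (int_z3 hB).const_mul c3
  have i4 := (int_z4 hB).const_mul c4
  have j1 := i0.add i1
  have j2 := j1.add i2
  have j3 := j2.add i3
  have j4 := j3.add i4
  refine ⟨j4, ?_⟩
  have e4 : ∫ y, (c0 + c1 * (y - 1) + c2 * (y - 1) ^ 2 + c3 * (y - 1) ^ 3 +
      c4 * (y - 1) ^ 4) ∂μ = ∫ y, (c0 + c1 * (y - 1) + c2 * (y - 1) ^ 2 + c3 * (y - 1) ^ 3) ∂μ +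
      ∫ y, c4 * (y - 1) ^ 4 ∂μ := integral_add j3 i4
  have e3 : ∫ y, (c0 + c1 * (y - 1) + c2 * (y - 1) ^ 2 + c3 * (y - 1) ^ 3) ∂μ =
      ∫ y, (c0 + c1 * (y - 1) + c2 * (y - 1) ^ 2) ∂μ + ∫ y, c3 * (y - 1) ^ 3 ∂μ :=
    integral_add j2 i3
  have e2 : ∫ y, (c0 + c1 * (y - 1) + c2 * (y - 1) ^ 2) ∂μ =
      ∫ y, (c0 + c1 * (y - 1)) ∂μ + ∫ y, c2 * (y - 1) ^ 2 ∂μ := integral_add j1 i2
  have e1 : ∫ y, (c0 + c1 * (y - 1)) ∂μ = ∫ _y : ℝ, c0 ∂μ + ∫ y, c1 * (y - 1) ∂μ :=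
    integral_add i0 i1
  rw [e4, e3, e2, e1, integral_const_mul, integral_const_mul, integral_const_mul,
    integral_const_mul, mean_z hB, hB.var]
  simp

lemma int_cos' (hB : B4 θ μ) (t s : ℝ) : Integrable (fun y : ℝ => cos (t * (y - 1) + s)) μ := by
  have := hB.prob
  refine (integrable_const (1 : ℝ)).mono' (by fun_prop) (Filter.Eventually.of_forall fun y => ?_)
  rw [Real.norm_eq_abs]
  exact abs_cos_le_one _

lemma int_cos (hB : B4 θ μ) (t : ℝ) : Integrable (fun y : ℝ => cos (t * (y - 1))) μ := by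
  have := int_cos' hB t 0
  simpa using this

lemma int_sin (hB : B4 θ μ) (t : ℝ) : Integrable (fun y : ℝ => sin (t * (y - 1))) μ := by
  have := hB.prob
  refine (integrable_const (1 : ℝ)).mono' (by fun_prop) (Filter.Eventually.of_forall fun y => ?_)
  rw [Real.norm_eq_abs]
  exact abs_sin_le_one _

/-- upper bound for the expectation of a shifted cosine. -/
lemma cos_upper (hB : B4 θ μ) (t s : ℝ) : ∫ y, cos (t * (y - 1) + s) ∂μ ≤
    1 - (t ^ 2 * vv θ + s ^ 2) / 2 + (t ^ 4 * (∫ y, (y - 1) ^ 4 ∂μ) +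
      4 * t ^ 3 * s * (∫ y, (y - 1) ^ 3 ∂μ) + 6 * t ^ 2 * s ^ 2 * vv θ + s ^ 4) / 24 := by
  obtain ⟨h1, h2⟩ := int_lin hB (1 - s ^ 2 / 2 + s ^ 4 / 24) (-(t * s) + 4 * t * s ^ 3 / 24)
    (-(t ^ 2 / 2) + 6 * t ^ 2 * s ^ 2 / 24) (4 * t ^ 3 * s / 24) (t ^ 4 / 24)
  have h3 : ∫ y, cos (t * (y - 1) + s) ∂μ ≤ ∫ y, (1 - s ^ 2 / 2 + s ^ 4 / 24 +
      (-(t * s) + 4 * t * s ^ 3 / 24) * (y - 1) + (-(t ^ 2 / 2) + 6 * t ^ 2 * s ^ 2 / 24) *
        (y - 1) ^ 2 + (4 * t ^ 3 * s / 24) * (y - 1) ^ 3 + (t ^ 4 / 24) * (y - 1) ^ 4) ∂μ := by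
    refine integral_mono (int_cos' hB t s) h1 (fun y => ?_)
    refine (cos_le4 _).trans (le_of_eq ?_)
    ring
  rw [h2] at h3
  refine h3.trans (le_of_eq ?_)
  ring

end law

theorem gFn (h0 : GC0) : GFn := by
  intro θ μ hB
  have hprob := hB.prob
  have hlaw := isLaw_ph (int_y hB) 1
  have hph1 : (fun t => ph μ (1 * t)) = ph μ := by
    funext t
    rw [one_mul]
  have hok := hlaw.ok
  rw [hph1] at hok
  set m3 := ∫ y, (y - 1) ^ 3 ∂μ with hm3
  set m4 := ∫ y, (y - 1) ^ 4 ∂μ with hm4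
  have hm3lo := hB.z3lo
  have hm3hi := hB.z3hi
  have hm4' := hB.z4
  rw [← hm3] at hm3lo hm3hi
  rw [← hm4] at hm4'
  have hshift : ∀ t, ph μ t = ∫ y, cos (t * (y - 1) + t) ∂μ := by
    intro t
    unfold ph
    congr 1
    funext y
    congr 1
    ring
  -- the pair of functions
  have hmax := hB.max_eq 1 1 zero_le_one zero_le_one
  have i1 : Integrable (fun p : ℝ × ℝ => |1 * p.1|) (μ.prod μ) :=
    (((int_y hB).comp_fst μ).const_mul 1).abs
  have i2 : Integrable (fun p : ℝ × ℝ => |1 * p.2|) (μ.prod μ) :=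
    (((int_y hB).comp_snd μ).const_mul 1).abs
  have i3 : Integrable (fun p : ℝ × ℝ => max |1 * p.1| |1 * p.2|) (μ.prod μ) := i1.sup i2
  have hmix := mix (μ.prod μ) (fun p t => Real.cos (1 * p.1 * t) * Real.cos (1 * p.2 * t))
    (by unfold Function.uncurry; fun_prop) (fun p => ok_cos_cos _ _) (by
      refine i3.congr (Filter.Eventually.of_forall fun p => ?_)
      exact (Lf_cos_cos _ _).symm)
  have esq : (fun t => ∫ p : ℝ × ℝ, Real.cos (1 * p.1 * t) * Real.cos (1 * p.2 * t) ∂(μ.prod μ)) =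
      fun t => ph μ t ^ 2 := by
    funext t
    rw [pow_two, ph, ← integral_prod_mul]
    refine integral_congr_ae (Filter.Eventually.of_forall fun p => ?_)
    simp only
    ring_nf
  rw [esq] at hmix
  have hval : ∫ p : ℝ × ℝ, Lf (fun t => Real.cos (1 * p.1 * t) * Real.cos (1 * p.2 * t))
      ∂(μ.prod μ) = (2 : ℝ) ^ θ := by
    have h1 : ∀ᵐ p : ℝ × ℝ ∂(μ.prod μ), 0 < p.1 :=
      (Measure.quasiMeasurePreserving_fst (μ := μ) (ν := μ)).ae hB.pos
    have h2 : ∀ᵐ p : ℝ × ℝ ∂(μ.prod μ), 0 < p.2 :=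
      (Measure.quasiMeasurePreserving_snd (μ := μ) (ν := μ)).ae hB.pos
    have e1 : ∫ p : ℝ × ℝ, Lf (fun t => Real.cos (1 * p.1 * t) * Real.cos (1 * p.2 * t))
        ∂(μ.prod μ) = ∫ p : ℝ × ℝ, max (1 * p.1) (1 * p.2) ∂(μ.prod μ) := by
      refine integral_congr_ae ?_
      filter_upwards [h1, h2] with p hp1 hp2
      rw [Lf_cos_cos, abs_of_nonneg (by positivity), abs_of_nonneg (by positivity)]
    rw [e1, hmax, one_rpow]
    norm_num
  refine ⟨hB.lo, hB.hi, hok.meas, hok.abs_le, ?_, ?_, ?_, hB.tv, hmix.1.int, ?_⟩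
  · intro t ht
    refine ⟨∫ y, cos (t * (y - 1)) ∂μ, ∫ y, sin (t * (y - 1)) ∂μ, ?_, ?_, ?_, ?_, ?_, ?_⟩
    · rw [hshift, ← integral_const_mul, ← integral_const_mul, ← integral_sub
        ((int_cos hB t).const_mul _) ((int_sin hB t).const_mul _)]
      congr 1
      funext y
      rw [cos_add]
      ring
    · obtain ⟨h1, h2⟩ := int_lin hB 1 0 (-(t ^ 2 / 2)) 0 0
      have h3 : ∫ y, (1 + 0 * (y - 1) + (-(t ^ 2 / 2)) * (y - 1) ^ 2 + 0 * (y - 1) ^ 3 +
          0 * (y - 1) ^ 4) ∂μ ≤ ∫ y, cos (t * (y - 1)) ∂μ := by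
        refine integral_mono h1 (int_cos hB t) (fun y => ?_)
        refine (le_of_eq ?_).trans Real.one_sub_sq_div_two_le_cos
        ring
      rw [h2] at h3
      refine (le_of_eq ?_).trans h3
      ring
    · have h3 := cos_upper hB t 0
      simp only [add_zero] at h3
      rw [← hm3, ← hm4] at h3
      have h4 : t ^ 4 * m4 ≤ t ^ 4 * zz θ := mul_le_mul_of_nonneg_left hm4' (by positivity)
      nlinarith [h3, h4]
    · have h1 : |∫ y, cos (t * (y - 1)) ∂μ| ≤ ∫ y, |cos (t * (y - 1))| ∂μ :=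
        abs_integral_le_integral_abs
      have h2 : ∫ y, |cos (t * (y - 1))| ∂μ ≤ ∫ _y : ℝ, (1 : ℝ) ∂μ :=
        integral_mono (int_cos hB t).abs (integrable_const _) (fun y => abs_cos_le_one _)
      rw [integral_const] at h2
      simp at h2
      linarith
    · obtain ⟨h1, h2⟩ := int_lin hB 0 t 0 (-(t ^ 3 / 6)) (-(t ^ 4 / 36))
      have h3 : ∫ y, (0 + t * (y - 1) + 0 * (y - 1) ^ 2 + (-(t ^ 3 / 6)) * (y - 1) ^ 3 +
          (-(t ^ 4 / 36)) * (y - 1) ^ 4) ∂μ ≤ ∫ y, sin (t * (y - 1)) ∂μ := by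
        refine integral_mono h1 (int_sin hB t) (fun y => ?_)
        have h4 := (abs_le.1 (sin_quart (t * (y - 1)))).1
        have e1 : (t * (y - 1)) ^ 3 = t ^ 3 * (y - 1) ^ 3 := by ring
        have e2 : (t * (y - 1)) ^ 4 = t ^ 4 * (y - 1) ^ 4 := by ring
        rw [e1, e2] at h4
        show 0 + t * (y - 1) + 0 * (y - 1) ^ 2 + (-(t ^ 3 / 6)) * (y - 1) ^ 3 +
          (-(t ^ 4 / 36)) * (y - 1) ^ 4 ≤ sin (t * (y - 1))
        linarith
      rw [h2, ← hm3, ← hm4] at h3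
      have h4 : t ^ 4 * m4 ≤ t ^ 4 * zz θ := mul_le_mul_of_nonneg_left hm4' (by positivity)
      have h5 : 0 ≤ t ^ 3 * (-m3) := mul_nonneg (by positivity) (by linarith)
      nlinarith [h3, h4, h5]
    · obtain ⟨h1, h2⟩ := int_lin hB 0 t 0 (-(t ^ 3 / 6)) (t ^ 4 / 36)
      have h3 : ∫ y, sin (t * (y - 1)) ∂μ ≤ ∫ y, (0 + t * (y - 1) + 0 * (y - 1) ^ 2 +
          (-(t ^ 3 / 6)) * (y - 1) ^ 3 + (t ^ 4 / 36) * (y - 1) ^ 4) ∂μ := by
        refine integral_mono (int_sin hB t) h1 (fun y => ?_)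
        have h4 := (abs_le.1 (sin_quart (t * (y - 1)))).2
        have e1 : (t * (y - 1)) ^ 3 = t ^ 3 * (y - 1) ^ 3 := by ring
        have e2 : (t * (y - 1)) ^ 4 = t ^ 4 * (y - 1) ^ 4 := by ring
        rw [e1, e2] at h4
        show sin (t * (y - 1)) ≤ 0 + t * (y - 1) + 0 * (y - 1) ^ 2 + (-(t ^ 3 / 6)) * (y - 1) ^ 3 +
          (t ^ 4 / 36) * (y - 1) ^ 4
        linarith
      rw [h2, ← hm3, ← hm4] at h3
      have h4 : t ^ 4 * m4 ≤ t ^ 4 * zz θ := mul_le_mul_of_nonneg_left hm4' (by positivity)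
      have h5 : t ^ 3 * (-m3) ≤ t ^ 3 * 0.006 :=
        mul_le_mul_of_nonneg_left (by linarith) (by positivity)
      nlinarith [h3, h4, h5]
  · intro t ht
    have h1 : -ph μ t = ∫ y, cos (t * (y - 1) + (t - π)) ∂μ := by
      rw [hshift, ← integral_neg]
      congr 1
      funext y
      rw [← cos_sub_pi]
      congr 1
      ring
    rw [h1]
    have h2 := cos_upper hB t (t - π)
    rw [← hm3, ← hm4] at h2
    refine h2.trans ?_
    have h4 : t ^ 4 * m4 ≤ t ^ 4 * zz θ := mul_le_mul_of_nonneg_left hm4' (by positivity)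
    have h5 : t ^ 3 * ((t - π) * m3) ≤ t ^ 3 * (0.006 * max 0 (π - t)) := by
      apply mul_le_mul_of_nonneg_left _ (by positivity)
      rcases le_total π t with h | h
      · rw [max_eq_left (by linarith)]
        nlinarith
      · rw [max_eq_right (by linarith)]
        nlinarith
    nlinarith [h4, h5]
  · intro t
    have h2 := cos_upper hB t t
    rw [← hshift, ← hm3, ← hm4] at h2
    refine h2.trans ?_
    have h4 : t ^ 4 * m4 ≤ t ^ 4 * zz θ := mul_le_mul_of_nonneg_left hm4' (by positivity)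
    have h5 : t ^ 4 * m3 ≤ 0 := mul_nonpos_of_nonneg_of_nonpos (by positivity) hm3hi
    nlinarith [h4, h5]
  · have h1 := hmix.2
    rw [hval] at h1
    unfold Lf at h1
    rw [h0.1, div_eq_iff (by positivity)] at h1
    rw [h1]
    ring

end Pool.Agent.Helper56.Pq
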